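import Pool.Agent.H14.AVR.Stmts2

/-!
# AVR, module ST1: the inequality for the irreducible cubics
-/

set_option autoImplicit false

namespace Pool.AVR

open Polynomial Matrix

/-- Over a field, the characteristic polynomial of the matrix over `F(t)`. -/
theorem st1_charpoly (F : Type) [Field F] (B : Matrix (Fin 3) (Fin 3) F[X])
    (f : F[X] × F[X] × F[X]) (h : (AA F[X] * B).charpoly = cubP f) :
    (AA (RatFunc F) * B.map (algebraMap F[X] (RatFunc F))).charpoly = cubK f := by
  have h1 : AA (RatFunc F) = (AA F[X]).map (algebraMap F[X] (RatFunc F)) := by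
    ext i j
    fin_cases i <;> fin_cases j <;> simp [AA]
  rw [h1, ← Matrix.map_mul, Matrix.charpoly_map, h]
  simp [cubP, cubK, cub]

/-- Triviality of the stabilisers. -/
theorem st1_stab (hSTAB : STABStmt) (F : Type) [Field F] (h2 : (2 : F) ≠ 0)
    (B : Matrix (Fin 3) (Fin 3) F[X]) (hB : Bᵀ = B) (f : F[X] × F[X] × F[X])
    (hf : Irreducible (cubK f)) (h : (AA F[X] * B).charpoly = cubP f)
    (g : Matrix (Fin 3) (Fin 3) F[X]) (hg : gᵀ * AA F[X] * g = AA F[X])
    (hgB : gᵀ * B * g = B) (hd : g.det = 1) : g = 1 := by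
  have h1 : AA (RatFunc F) = (AA F[X]).map (algebraMap F[X] (RatFunc F)) := by
    ext i j
    fin_cases i <;> fin_cases j <;> simp [AA]
  have hK2 : (2 : RatFunc F) ≠ 0 := by
    have h3 : (2 : RatFunc F) = algebraMap F (RatFunc F) 2 := (map_ofNat _ 2).symm
    rw [h3]
    intro h4
    exact h2 ((map_eq_zero_iff _ (algebraMap F (RatFunc F)).injective).1 h4)
  have key := hSTAB (RatFunc F) hK2 (B.map (algebraMap F[X] (RatFunc F)))
    (g.map (algebraMap F[X] (RatFunc F))) (by rw [← Matrix.transpose_map, hB])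
    (by rw [st1_charpoly F B f h]; exact hf)
    (by rw [h1, ← Matrix.transpose_map, ← Matrix.map_mul, ← Matrix.map_mul, hg])
    (by rw [← Matrix.transpose_map, ← Matrix.map_mul, ← Matrix.map_mul, hgB])
    (by
      have h5 : g.map (algebraMap F[X] (RatFunc F)) =
        (algebraMap F[X] (RatFunc F)).mapMatrix g := rfl
      rw [h5, ← RingHom.map_det, hd, map_one])
  ext1 i j
  apply IsFractionRing.injective F[X] (RatFunc F)
  have h6 := congrFun (congrFun key i) j
  rw [Matrix.map_apply] at h6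
  rw [h6]
  by_cases hij : i = j
  · subst hij; simp
  · simp [Matrix.one_apply_ne hij]

/-- A point with `y = 0` gives a root. -/
theorem st1_root (F : Type) [Field F] (f : F[X] × F[X] × F[X]) (hf : Irreducible (cubK f))
    (x y : RatFunc F)
    (h : (E (algebraMap F[X] (RatFunc F) f.1) (algebraMap F[X] (RatFunc F) f.2.1)
        (algebraMap F[X] (RatFunc F) f.2.2)).toAffine.Nonsingular x y) : y ≠ 0 := by
  rintro rfl
  have h1 := (WeierstrassCurve.Affine.equation_iff _ _).1 h.1
  have h2 : (cubK f).IsRoot x := by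
    simp only [cubK, cub, IsRoot.def, eval_add, eval_mul, eval_pow, eval_X, eval_C]
    simp only [E] at h1
    linear_combination -h1
  have hdeg : (cubK f).natDegree = 3 := by
    unfold cubK cub
    compute_degree!
  have h3 := Polynomial.degree_eq_one_of_irreducible_of_root hf h2
  rw [Polynomial.degree_eq_natDegree hf.ne_zero, hdeg] at h3
  norm_num at h3

/-- The geometric series. -/
theorem st1_series (q : ℝ) (hq : 1 < q) (n : ℕ) :
    1 / (q ^ 3 - q) + ∑ m ∈ Finset.range n, 1 / ((q - 1) * q ^ (m + 2)) ≤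
      2 / ((q - 1) ^ 2 * (q + 1)) := by
  have h0 : 0 < q := by linarith
  have h1 : 0 < q - 1 := by linarith
  have hs : ∀ n : ℕ, ∑ m ∈ Finset.range n, 1 / ((q - 1) * q ^ (m + 2)) =
      1 / (q * (q - 1) ^ 2) - 1 / ((q - 1) ^ 2 * q ^ (n + 1)) := by
    intro n
    induction n with
    | zero => simp; field_simp; simp
    | succ k ih =>
      rw [Finset.sum_range_succ, ih]
      field_simp
      ring
  rw [hs]
  have h2 : 0 < 1 / ((q - 1) ^ 2 * q ^ (n + 1)) := by positivity
  have h3 : 0 < q ^ 3 - q := by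
    have : q ^ 3 - q = q * (q - 1) * (q + 1) := by ring
    rw [this]; positivity
  have h4 : 1 / (q ^ 3 - q) + 1 / (q * (q - 1) ^ 2) = 2 / ((q - 1) ^ 2 * (q + 1)) := by
    have h5 : q ^ 3 - q = q * (q - 1) * (q + 1) := by ring
    have h6 : q + 1 ≠ 0 := by positivity
    rw [h5]
    field_simp
    ring
  linarith

open Classical in
theorem st1_thm (hFIN : FINStmt) (hSTAB : STABStmt) (hGRP : GRPStmt) (hCNB : CNBStmt)
    (hCNF : CNFStmt) : ST1Stmt := by
  intro F _ _ h2 n hn
  have hfin : (Irr F n).Finite := (hCNF F h2 n hn).1.subset (fun f hf => hf.1)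
  obtain ⟨hF1, hF2⟩ := hFIN F h2 n 1 (Irr F n) (fun f hf => hf.1) (fun f hf => hf.2.2)
    (by
      intro B hB ⟨f, hf, hfB⟩
      have hsub : {g : Matrix (Fin 3) (Fin 3) F[X] | gᵀ * AA F[X] * g = AA F[X] ∧
          gᵀ * B * g = B ∧ g.det = 1} ⊆ {1} := by
        intro g hg
        exact st1_stab hSTAB F h2 B hB f hf.2.1 hfB g hg.1 hg.2.1 hg.2.2
      refine ⟨(Set.finite_singleton _).subset hsub, ?_⟩
      exact (Set.ncard_le_ncard hsub (Set.finite_singleton _)).trans
        (by rw [Set.ncard_singleton]))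
  have hset : ∀ f ∈ Irr F n, {ξ : Mod2 (EK f) | ξ ≠ 0 ∧ ∃ (x y : RatFunc F)
      (h : (E (algebraMap F[X] (RatFunc F) f.1) (algebraMap F[X] (RatFunc F) f.2.1)
        (algebraMap F[X] (RatFunc F) f.2.2)).toAffine.Nonsingular x y), y ≠ 0 ∧
        QuotientAddGroup.mk (WeierstrassCurve.Affine.Point.some x y h) = ξ} =
        {ξ : Mod2 (EK f) | ξ ≠ 0} := by
    intro f hf
    ext ξ
    refine ⟨fun h => h.1, fun h => ⟨h, ?_⟩⟩
    obtain ⟨P, rfl⟩ := QuotientAddGroup.mk_surjective ξ
    cases P with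
    | zero => exact absurd (QuotientAddGroup.mk_zero _) h
    | some x y hP => exact ⟨x, y, hP, st1_root F f hf.2.1 x y hP, rfl⟩
  have hfinM : ∀ f ∈ Irr F n, Finite (Mod2 (EK f)) := by
    intro f hf
    have h3 := hF1 f hf
    rw [hset f hf] at h3
    have h4 : (Set.univ : Set (Mod2 (EK f))).Finite := by
      refine ((Set.finite_singleton (0 : Mod2 (EK f))).union h3).subset ?_
      intro ξ _
      by_cases hξ : ξ = 0
      · exact Or.inl hξ
      · exact Or.inr hξ
    exact Set.finite_univ_iff.1 h4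
  refine ⟨hfin, hfinM, ?_⟩
  have hq1 : (1 : ℝ) < Nat.card F := by
    exact_mod_cast Finite.one_lt_card
  have hsum : ∑ᶠ f ∈ Irr F n, ((Nat.card (Mod2 (EK f)) : ℝ) - 1) =
      ∑ᶠ f ∈ Irr F n, ({ξ : Mod2 (EK f) | ξ ≠ 0 ∧ ∃ (x y : RatFunc F)
      (h : (E (algebraMap F[X] (RatFunc F) f.1) (algebraMap F[X] (RatFunc F) f.2.1)
        (algebraMap F[X] (RatFunc F) f.2.2)).toAffine.Nonsingular x y), y ≠ 0 ∧
        QuotientAddGroup.mk (WeierstrassCurve.Affine.Point.some x y h) = ξ}.ncard : ℝ) := by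
    refine finsum_mem_congr rfl (fun f hf => ?_)
    rw [hset f hf]
    have hfi := hfinM f hf
    have h5 : ({ξ : Mod2 (EK f) | ξ ≠ 0} : Set (Mod2 (EK f))) = {0}ᶜ := rfl
    rw [h5, Set.ncard_compl, Set.ncard_singleton]
    have h6 : 1 ≤ Nat.card (Mod2 (EK f)) := Nat.card_pos
    push_cast [h6]
    rfl
  rw [hsum]
  refine hF2.trans ?_
  set q : ℝ := (Nat.card F : ℝ) with hq
  obtain ⟨hG1, hG2, hG3⟩ := hGRP F h2
  have hterm : ∀ m ∈ Finset.range (n + 1),
      ({B : Matrix (Fin 3) (Fin 3) F[X] | Bd n m B ∧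
          ∃ f ∈ Irr F n, (AA F[X] * B).charpoly = cubP f}.ncard : ℝ) / (GG F m).ncard ≤
        q ^ (12 * n + 6) * (if m = 0 then 1 / (q ^ 3 - q) else 1 / ((q - 1) * q ^ (m + 1))) := by
    intro m hm
    have hmn : m ≤ n := Nat.lt_succ_iff.1 (Finset.mem_range.1 hm)
    obtain ⟨hC1, hC2⟩ := hCNB F n m hmn
    have h7 : ({B : Matrix (Fin 3) (Fin 3) F[X] | Bd n m B ∧
          ∃ f ∈ Irr F n, (AA F[X] * B).charpoly = cubP f}.ncard : ℝ) ≤ q ^ (12 * n + 6) := by
      have h8 := (Set.ncard_le_ncard (s := {B : Matrix (Fin 3) (Fin 3) F[X] | Bd n m B ∧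
          ∃ f ∈ Irr F n, (AA F[X] * B).charpoly = cubP f}) (fun B hB => hB.1) hC1).trans hC2
      rw [hq]
      exact_mod_cast h8
    have h9 : 0 < (if m = 0 then q ^ 3 - q else (q - 1) * q ^ (m + 1)) := by
      split_ifs
      · have : q ^ 3 - q = q * (q - 1) * (q + 1) := by ring
        rw [this]
        have := sub_pos.2 hq1
        positivity
      · have := sub_pos.2 hq1
        positivity
    have h10 : (if m = 0 then q ^ 3 - q else (q - 1) * q ^ (m + 1)) ≤ ((GG F m).ncard : ℝ) := by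
      split_ifs with hm0
      · subst hm0
        have h11 : Nat.card F ≤ Nat.card F ^ 3 := Nat.le_self_pow (by norm_num) _
        have h12 : ((Nat.card F ^ 3 - Nat.card F : ℕ) : ℝ) ≤ ((GG F 0).ncard : ℝ) := by
          exact_mod_cast hG2
        rw [Nat.cast_sub h11] at h12
        push_cast at h12
        exact h12
      · have h12 : (((Nat.card F - 1) * Nat.card F ^ (m + 1) : ℕ) : ℝ) ≤
            ((GG F m).ncard : ℝ) := by
          exact_mod_cast hG3 m (Nat.one_le_iff_ne_zero.2 hm0)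
        rw [Nat.cast_mul, Nat.cast_sub (le_of_lt (Finite.one_lt_card))] at h12
        push_cast at h12
        exact h12
    calc _ ≤ q ^ (12 * n + 6) / ((GG F m).ncard : ℝ) := by gcongr
      _ ≤ q ^ (12 * n + 6) / (if m = 0 then q ^ 3 - q else (q - 1) * q ^ (m + 1)) := by
        apply div_le_div_of_nonneg_left _ h9 h10
        positivity
      _ = _ := by
        split_ifs <;> ring
  calc _ ≤ (1 : ℕ) * ∑ m ∈ Finset.range (n + 1), q ^ (12 * n + 6) *
        (if m = 0 then 1 / (q ^ 3 - q) else 1 / ((q - 1) * q ^ (m + 1))) := by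
        gcongr with m hm
        exact hterm m hm
    _ = q ^ (12 * n + 6) * (1 / (q ^ 3 - q) +
        ∑ m ∈ Finset.range n, 1 / ((q - 1) * q ^ (m + 2))) := by
        rw [← Finset.mul_sum, Finset.sum_range_succ']
        simp only [Nat.cast_one, one_mul, if_true, Nat.succ_ne_zero, if_false]
        ring
    _ ≤ _ := by
        have h13 := st1_series q hq1 n
        gcongr

end Pool.AVR
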