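import Pool.Agent.H14.AVR.Stmts4
import Pool.Agent.H10.AVR.PRD

/-!
# AVR, module PRG: the product of the densities is bounded below, all odd characteristics
-/

set_option autoImplicit false

namespace Pool.AVR

open Polynomial

namespace H64PRG

lemma card_ge {F : Type} [Field F] [Finite F] (h2 : (2 : F) ≠ 0) : 3 ≤ Nat.card F := by
  let _ : Fintype F := Fintype.ofFinite F
  have h1 : 1 < Nat.card F := Finite.one_lt_card
  have h3 : ((Fintype.card F : ℕ) : F) = 0 := Nat.cast_card_eq_zero F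
  rw [← Nat.card_eq_fintype_card] at h3
  by_contra h4
  have h5 : Nat.card F = 2 := by omega
  rw [h5] at h3
  exact h2 (by exact_mod_cast h3)

/-- The lower bound for the local densities over an algebra over `F`. -/
lemma dens_ge (hDEL : DELStmt) (hDE5 : DE5Stmt) {F : Type} [Field F] (h2 : (2 : F) ≠ 0)
    (R : Type) [CommRing R] [Finite R] (ϖ : R) (hL : Len2 R ϖ) (j : F →+* R) :
    1 - 2 / (res ϖ : ℝ) ^ 2 ≤ dens R := by
  by_cases h3 : (3 : F) = 0
  · refine hDEL R ϖ hL ?_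
    have : (3 : R) = j 3 := (map_ofNat j 3).symm
    rw [this, h3, map_zero]
  · refine hDE5 R ϖ hL ?_ ?_
    · have : (2 : R) = j 2 := (map_ofNat j 2).symm
      rw [this]
      exact (IsUnit.mk0 _ h2).map j
    · have : (3 : R) = j 3 := (map_ofNat j 3).symm
      rw [this]
      exact (IsUnit.mk0 _ h3).map j

end H64PRG

open H10PRD in
theorem prg_thm (hDEL : DELStmt) (hDE5 : DE5Stmt) (hLN2 : LN2Stmt) : PRGStmt := by
  intro F _ _ h2
  have hq := H64PRG.card_ge h2
  set q : ℝ := (Nat.card F : ℝ) with hqdef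
  have hq3 : (3 : ℝ) ≤ q := by rw [hqdef]; exact_mod_cast hq
  obtain ⟨hA, hD1, hD2⟩ := hLN2 F
  refine ⟨7 / 9 * Real.exp (-(4 * (2 * q))), by positivity, ?_⟩
  intro S hS
  have : Finite (DualNumber F) := inferInstanceAs (Finite (F × F))
  have hd1 : (7 / 9 : ℝ) ≤ dens (DualNumber F) := by
    have h := H64PRG.dens_ge hDEL hDE5 h2 (DualNumber F) DualNumber.eps hD1
      (algebraMap F (DualNumber F))
    rw [hD2] at h
    refine le_trans ?_ h
    have h9 : (9 : ℝ) ≤ q ^ 2 := by nlinarith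
    have : 2 / q ^ 2 ≤ 2 / 9 := by gcongr
    rw [← hqdef]
    linarith
  have hd2 : ∀ P ∈ S, Real.exp (-(4 * (1 / q ^ (2 * P.natDegree)))) ≤
      dens (AdjoinRoot (P ^ 2)) := by
    intro P hP
    obtain ⟨hm, hi⟩ := hS P hP
    obtain ⟨hL, hfin, hres⟩ := hA P hm hi
    have := hfin
    have h := H64PRG.dens_ge hDEL hDE5 h2 (AdjoinRoot (P ^ 2)) (AdjoinRoot.mk (P ^ 2) P) hL
      (AdjoinRoot.of (P ^ 2))
    rw [hres] at h
    have hdeg : 1 ≤ P.natDegree := hi.natDegree_pos
    have hx : 2 / ((Nat.card F ^ P.natDegree : ℕ) : ℝ) ^ 2 = 2 / q ^ (2 * P.natDegree) := by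
      rw [Nat.cast_pow, ← pow_mul, mul_comm P.natDegree 2]
    rw [hx] at h
    have h9 : (9 : ℝ) ≤ q ^ (2 * P.natDegree) := by
      calc (9 : ℝ) ≤ q ^ 2 := by nlinarith
        _ ≤ q ^ (2 * P.natDegree) := pow_le_pow_right₀ (by linarith) (by omega)
    have h4 : 2 / q ^ (2 * P.natDegree) ≤ 2 / 9 := by gcongr
    have h5 := exp_le (x := 2 / q ^ (2 * P.natDegree)) (by positivity) h4
    refine le_trans (le_of_eq ?_) (h5.trans h)
    congr 1
    ring
  have hprod : Real.exp (-(4 * (2 * q))) ≤ ∏ P ∈ S, dens (AdjoinRoot (P ^ 2)) := by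
    calc Real.exp (-(4 * (2 * q)))
        ≤ Real.exp (∑ P ∈ S, -(4 * (1 / q ^ (2 * P.natDegree)))) := by
          apply Real.exp_le_exp.mpr
          rw [Finset.sum_neg_distrib, ← Finset.mul_sum]
          have := sum_le hq S
          rw [← hqdef] at this
          linarith
      _ = ∏ P ∈ S, Real.exp (-(4 * (1 / q ^ (2 * P.natDegree)))) := Real.exp_sum _ _
      _ ≤ ∏ P ∈ S, dens (AdjoinRoot (P ^ 2)) :=
          Finset.prod_le_prod (fun _ _ => (Real.exp_pos _).le) hd2
  calc 7 / 9 * Real.exp (-(4 * (2 * q)))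
      ≤ dens (DualNumber F) * ∏ P ∈ S, dens (AdjoinRoot (P ^ 2)) := by
        apply mul_le_mul hd1 hprod (Real.exp_pos _).le (by linarith)

end Pool.AVR
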