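import Pool.Agent.H14.AVR.Stmts3

/-!
# AVR, module TOP: the two top coefficients
-/

set_option autoImplicit false

namespace Pool.AVR

open Polynomial Matrix

/-- `top` as an additive map. -/
def topH (F : Type) [Field F] (N : ℕ) : F[X] →+ DualNumber F where
  toFun := top N
  map_zero' := by
    unfold top
    simp
    rfl
  map_add' := by
    intro x y
    unfold top
    simp only [coeff_add]
    rfl

theorem coeff_eq_reflect (F : Type) [Field F] (N : ℕ) (p : F[X]) :
    p.coeff N = (reflect N p).coeff 0 := by
  rw [coeff_reflect, revAt_le (Nat.zero_le _), Nat.sub_zero]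

theorem coeff_eq_reflect' (F : Type) [Field F] (N : ℕ) (hN : 1 ≤ N) (p : F[X]) :
    p.coeff (N - 1) = (reflect N p).coeff 1 := by
  rw [coeff_reflect, revAt_le hN]

/-- `top` is multiplicative. -/
theorem top_mul (F : Type) [Field F] (N N' : ℕ) (hN : 1 ≤ N) (hN' : 1 ≤ N') (p p' : F[X])
    (hp : p.natDegree ≤ N) (hp' : p'.natDegree ≤ N') :
    top (N + N') (p * p') = top N p * top N' p' := by
  refine TrivSqZeroExt.ext ?_ ?_
  · rw [TrivSqZeroExt.fst_mul]
    change (p * p').coeff (N + N') = p.coeff N * p'.coeff N'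
    rw [coeff_eq_reflect, coeff_eq_reflect F N, coeff_eq_reflect F N', reflect_mul _ _ hp hp',
      mul_coeff_zero]
  · rw [TrivSqZeroExt.snd_mul]
    change (p * p').coeff (N + N' - 1) = p.coeff N * p'.coeff (N' - 1) +
      p.coeff (N - 1) * p'.coeff N'
    rw [coeff_eq_reflect' F (N + N') (by omega), coeff_eq_reflect F N, coeff_eq_reflect F N',
      coeff_eq_reflect' F N hN, coeff_eq_reflect' F N' hN', reflect_mul _ _ hp hp',
      mul_coeff_one]

theorem top_mul' (F : Type) [Field F] (N N' M : ℕ) (hN : 1 ≤ N) (hN' : 1 ≤ N') (p p' : F[X])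
    (hp : p.natDegree ≤ N) (hp' : p'.natDegree ≤ N') (hM : M = N + N') :
    topH F M (p * p') = topH F N p * topH F N' p' := by
  subst hM
  exact top_mul F N N' hN hN' p p' hp hp'

theorem top_natmul (F : Type) [Field F] (N k : ℕ) (p : F[X]) :
    topH F N ((k : F[X]) * p) = (k : DualNumber F) * topH F N p := by
  rw [← nsmul_eq_mul, map_nsmul, nsmul_eq_mul]

/-- Explicit characteristic polynomial. -/
theorem top_charpoly (R : Type) [CommRing R] (p q r s u w : R) :
    (AA R * !![p, q, r; q, s, u; r, u, w]).charpoly =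
      cub (-(2 * r + s)) (2 * (r * s) + r * r - 2 * (q * u) - p * w)
        (p * s * w - r * r * s + 2 * (q * u * r) - p * u * u - q * q * w) := by
  have h : AA R * !![p, q, r; q, s, u; r, u, w] = !![r, u, w; q, s, u; p, q, r] := by
    ext i j
    fin_cases i <;> fin_cases j <;> simp [AA, Matrix.mul_apply, Fin.sum_univ_three]
  rw [h, Matrix.charpoly, Matrix.det_fin_three]
  simp only [charmatrix_apply, Matrix.diagonal_apply, cub]
  simp
  have hC2 : (C (2 : R) : R[X]) = 2 := map_ofNat C 2
  rw [hC2]
  ring

/-- The cubic determines the coefficients. -/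
theorem top_cub_inj (R : Type) [CommRing R] (a b c a' b' c' : R)
    (h : cub a b c = cub a' b' c') : a = a' ∧ b = b' ∧ c = c' := by
  have h2 := congrArg (fun p => p.coeff 2) h
  have h1 := congrArg (fun p => p.coeff 1) h
  have h0 := congrArg (fun p => p.coeff 0) h
  simp [cub, coeff_X, coeff_C] at h0 h1 h2
  exact ⟨h2, h1, h0⟩

theorem topH_apply (F : Type) [Field F] (N : ℕ) (p : F[X]) : topH F N p = top N p := rfl

theorem natDegree_mul_le' {F : Type} [Field F] {p q : F[X]} {a b c : ℕ} (hp : p.natDegree ≤ a)
    (hq : q.natDegree ≤ b) (hc : c = a + b) : (p * q).natDegree ≤ c := by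
  subst hc
  exact natDegree_mul_le.trans (Nat.add_le_add hp hq)

theorem top_thm : TOPStmt := by
  intro F _ n m hmn
  have hn : 1 ≤ n := by omega
  constructor
  · intro B f hB hf hch
    obtain ⟨hT, hdeg⟩ := hB
    have hd : ∀ i j, (B i j).natDegree ≤ (2 * (n : ℤ) + dd m i + dd m j).toNat := by
      intro i j
      by_cases h0 : B i j = 0
      · rw [h0]; simp
      · have := hdeg i j h0
        omega
    have hs : ∀ i j, B i j = B j i := fun i j => by
      have := congrFun (congrFun hT j) i
      rwa [Matrix.transpose_apply] at this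
    have hBe : B = !![B 0 0, B 0 1, B 0 2; B 0 1, B 1 1, B 1 2; B 0 2, B 1 2, B 2 2] := by
      ext1 i j
      fin_cases i <;> fin_cases j <;> simp [hs 1 0, hs 2 0, hs 2 1]
    have e00 : (2 * (n : ℤ) + dd m 0 + dd m 0).toNat = 2 * n - 2 * m := by simp [dd]; omega
    have e01 : (2 * (n : ℤ) + dd m 0 + dd m 1).toNat = 2 * n - m := by simp [dd]; omega
    have e02 : (2 * (n : ℤ) + dd m 0 + dd m 2).toNat = 2 * n := by simp [dd]; omega
    have e11 : (2 * (n : ℤ) + dd m 1 + dd m 1).toNat = 2 * n := by simp [dd]; omega
    have e12 : (2 * (n : ℤ) + dd m 1 + dd m 2).toNat = 2 * n + m := by simp [dd]; omega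
    have e22 : (2 * (n : ℤ) + dd m 2 + dd m 2).toNat = 2 * n + 2 * m := by simp [dd]; omega
    have e10 : (2 * (n : ℤ) + dd m 1 + dd m 0).toNat = 2 * n - m := by simp [dd]; omega
    have e20 : (2 * (n : ℤ) + dd m 2 + dd m 0).toNat = 2 * n := by simp [dd]; omega
    have e21 : (2 * (n : ℤ) + dd m 2 + dd m 1).toNat = 2 * n + m := by simp [dd]; omega
    have d00 := hd 0 0
    have d01 := hd 0 1
    have d02 := hd 0 2
    have d11 := hd 1 1
    have d12 := hd 1 2
    have d22 := hd 2 2
    rw [e00] at d00
    rw [e01] at d01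
    rw [e02] at d02
    rw [e11] at d11
    rw [e12] at d12
    rw [e22] at d22
    have hTop : (Matrix.of fun i j => top (2 * (n : ℤ) + dd m i + dd m j).toNat (B i j)) =
        !![topH F (2 * n - 2 * m) (B 0 0), topH F (2 * n - m) (B 0 1), topH F (2 * n) (B 0 2);
          topH F (2 * n - m) (B 0 1), topH F (2 * n) (B 1 1), topH F (2 * n + m) (B 1 2);
          topH F (2 * n) (B 0 2), topH F (2 * n + m) (B 1 2),
            topH F (2 * n + 2 * m) (B 2 2)] := by
      ext1 i j
      fin_cases i <;> fin_cases j <;>
        simp [hs 1 0, hs 2 0, hs 2 1, e00, e01, e02, e10, e11, e12, e20, e21, e22,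
          topH_apply]
    rw [hTop, top_charpoly]
    rw [hBe, top_charpoly] at hch
    obtain ⟨h1, h2, h3⟩ := top_cub_inj _ _ _ _ _ _ _ hch
    generalize B 0 0 = p at *
    generalize B 0 1 = q at *
    generalize B 0 2 = r at *
    generalize B 1 1 = s at *
    generalize B 1 2 = u at *
    generalize B 2 2 = w at *
    have t2 : ∀ (N : ℕ) (x : F[X]), topH F N (2 * x) = 2 * topH F N x := fun N x => by
      have := top_natmul F N 2 x
      exact_mod_cast this
    rw [← h1, ← h2, ← h3, ← topH_apply, ← topH_apply, ← topH_apply]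
    have a1 : topH F (2 * n) (-(2 * r + s)) = -(2 * topH F (2 * n) r + topH F (2 * n) s) := by
      rw [map_neg, map_add, t2]
    have a2 : topH F (4 * n) (2 * (r * s) + r * r - 2 * (q * u) - p * w) =
        2 * (topH F (2 * n) r * topH F (2 * n) s) + topH F (2 * n) r * topH F (2 * n) r -
          2 * (topH F (2 * n - m) q * topH F (2 * n + m) u) -
          topH F (2 * n - 2 * m) p * topH F (2 * n + 2 * m) w := by
      rw [map_sub, map_sub, map_add, t2, t2,
        top_mul' F (2 * n) (2 * n) (4 * n) (by omega) (by omega) r s d02 d11 (by omega),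
        top_mul' F (2 * n) (2 * n) (4 * n) (by omega) (by omega) r r d02 d02 (by omega),
        top_mul' F (2 * n - m) (2 * n + m) (4 * n) (by omega) (by omega) q u d01 d12 (by omega),
        top_mul' F (2 * n - 2 * m) (2 * n + 2 * m) (4 * n) (by omega) (by omega) p w d00 d22
          (by omega)]
    have a3 : topH F (6 * n) (p * s * w - r * r * s + 2 * (q * u * r) - p * u * u - q * q * w) =
        topH F (2 * n - 2 * m) p * topH F (2 * n) s * topH F (2 * n + 2 * m) w -
          topH F (2 * n) r * topH F (2 * n) r * topH F (2 * n) s +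
          2 * (topH F (2 * n - m) q * topH F (2 * n + m) u * topH F (2 * n) r) -
          topH F (2 * n - 2 * m) p * topH F (2 * n + m) u * topH F (2 * n + m) u -
          topH F (2 * n - m) q * topH F (2 * n - m) q * topH F (2 * n + 2 * m) w := by
      rw [map_sub, map_sub, map_add, map_sub, t2,
        top_mul' F (4 * n - 2 * m) (2 * n + 2 * m) (6 * n) (by omega) (by omega) (p * s) w
          (natDegree_mul_le' d00 d11 (by omega)) d22 (by omega),
        top_mul' F (2 * n - 2 * m) (2 * n) (4 * n - 2 * m) (by omega) (by omega) p s d00 d11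
          (by omega),
        top_mul' F (4 * n) (2 * n) (6 * n) (by omega) (by omega) (r * r) s
          (natDegree_mul_le' d02 d02 (by omega)) d11 (by omega),
        top_mul' F (2 * n) (2 * n) (4 * n) (by omega) (by omega) r r d02 d02 (by omega),
        top_mul' F (4 * n) (2 * n) (6 * n) (by omega) (by omega) (q * u) r
          (natDegree_mul_le' d01 d12 (by omega)) d02 (by omega),
        top_mul' F (2 * n - m) (2 * n + m) (4 * n) (by omega) (by omega) q u d01 d12 (by omega),
        top_mul' F (4 * n - m) (2 * n + m) (6 * n) (by omega) (by omega) (p * u) u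
          (natDegree_mul_le' d00 d12 (by omega)) d12 (by omega),
        top_mul' F (2 * n - 2 * m) (2 * n + m) (4 * n - m) (by omega) (by omega) p u d00 d12
          (by omega),
        top_mul' F (4 * n - 2 * m) (2 * n + 2 * m) (6 * n) (by omega) (by omega) (q * q) w
          (natDegree_mul_le' d01 d01 (by omega)) d22 (by omega),
        top_mul' F (2 * n - m) (2 * n - m) (4 * n - 2 * m) (by omega) (by omega) q q d01 d01
          (by omega)]
    rw [a1, a2, a3]
  · rintro ⟨a, b, c⟩ ⟨ha, hb, hc⟩
    simp only at ha hb hc ⊢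
    have tk : ∀ (k N : ℕ) (x : F[X]), topH F N ((k : F[X]) * x) = (k : DualNumber F) *
      topH F N x := fun k N x => top_natmul F N k x
    have hdisc : ∀ (R : Type) [CommRing R] (x y z : R), disc x y z =
        ((x * x) * (y * y) - (4 : ℕ) * ((y * y) * y) - (4 : ℕ) * (((x * x) * x) * z) +
          (18 : ℕ) * ((x * y) * z)) - (27 : ℕ) * (z * z) := by
      intro R _ x y z
      unfold disc
      push_cast
      ring
    rw [hdisc, hdisc, ← topH_apply, ← topH_apply, ← topH_apply, ← topH_apply]
    rw [map_sub, map_add, map_sub, map_sub, tk, tk, tk, tk,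
      top_mul' F (4 * n) (8 * n) (12 * n) (by omega) (by omega) (a * a) (b * b)
        (natDegree_mul_le' ha ha (by omega)) (natDegree_mul_le' hb hb (by omega)) (by omega),
      top_mul' F (2 * n) (2 * n) (4 * n) (by omega) (by omega) a a ha ha (by omega),
      top_mul' F (8 * n) (4 * n) (12 * n) (by omega) (by omega) (b * b) b
        (natDegree_mul_le' hb hb (by omega)) hb (by omega),
      top_mul' F (4 * n) (4 * n) (8 * n) (by omega) (by omega) b b hb hb (by omega),
      top_mul' F (6 * n) (6 * n) (12 * n) (by omega) (by omega) (a * a * a) c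
        (natDegree_mul_le' (natDegree_mul_le' ha ha rfl) ha (by omega)) hc (by omega),
      top_mul' F (4 * n) (2 * n) (6 * n) (by omega) (by omega) (a * a) a
        (natDegree_mul_le' ha ha (by omega)) ha (by omega),
      top_mul' F (2 * n) (2 * n) (4 * n) (by omega) (by omega) a a ha ha (by omega),
      top_mul' F (6 * n) (6 * n) (12 * n) (by omega) (by omega) (a * b) c
        (natDegree_mul_le' ha hb (by omega)) hc (by omega),
      top_mul' F (2 * n) (4 * n) (6 * n) (by omega) (by omega) a b ha hb (by omega),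
      top_mul' F (6 * n) (6 * n) (12 * n) (by omega) (by omega) c c hc hc (by omega)]

end Pool.AVR
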